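import Pool.Agent.CPD.All
import Pool.Agent.CPD.AUT
import Pool.Agent.CPD.PDLink

/-!
# Combable and automatic orientable PD₃-groups are 1-connected at infinity
-/

set_option autoImplicit false

namespace Pool.Agent.Results.MP_d2e046_gt.CombableAutomatic

open Pool.Agent.CPD

/-- Let `G` be an orientable PD₃-group. If `G` is combable (it has a bounded combing with a
departure function) or automatic, then for every finite presentation of `G` the Cayley 2-complex is
1-connected at infinity. -/
theorem result (G : Type) [Group G] (hPD : OrientablePD3 G) (hc : Combable G ∨ Automatic G)
    (α : Type) [Finite α] (f : α → G) (R : Set (List (α × Bool))) (hR : R.Finite)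
    (hP : IsPresentation f R) : OneConnectedAtInfinity f R :=
  All G hPD.isOrientablePD3 (hc.elim id (AUT G)) α f R hR hP

end Pool.Agent.Results.MP_d2e046_gt.CombableAutomatic
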