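import Pool.Agent.SFG.All
import Pool.Agent.CPD.PDLink

/-!
# Orientable PD₃-groups which are semistable at infinity
-/

set_option autoImplicit false

namespace Pool.Agent.Results.MP_d2e046_gt.Semistable

open Pool.Agent.CPD Pool.Agent.SPD

/-- Let `G` be an orientable PD₃-group with a finite presentation. If the Cayley 2-complex is
semistable at infinity, then it is 1-connected at infinity. -/
theorem result (G : Type) [Group G] (hPD : OrientablePD3 G) (α : Type) [Finite α] (f : α → G)
    (R : Set (List (α × Bool))) (hR : R.Finite) (hP : IsPresentation f R)
    (hs : SemistableAtInfinity f R) : OneConnectedAtInfinity f R :=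
  SFG.All G hPD.isOrientablePD3 α f R hR hP hs

end Pool.Agent.Results.MP_d2e046_gt.Semistable
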